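import Pool.Agent.H153Z.Stat.St
import Pool.Agent.H153Z.DcInterp

/-! A convex `C²` function with prescribed convex quadratic germs at finitely many points. -/

set_option autoImplicit false

namespace Pool.Agent.H765Z.Interp

open Filter Topology Pool.Agent.H153Z.DcInterp

/-- The cube of the positive part. -/
noncomputable def P (s : ℝ) : ℝ := (max s 0) ^ 3

lemma hasDerivAt_P (t : ℝ) : HasDerivAt P (3 * (max t 0) ^ 2) t := by
  rcases lt_trichotomy t 0 with h | h | h
  · have : P =ᶠ[𝓝 t] fun _ => 0 := by
      filter_upwards [Iio_mem_nhds h] with s hs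
      rw [P, max_eq_right (le_of_lt hs)]; norm_num
    rw [max_eq_right h.le]
    simpa using (hasDerivAt_const t (0 : ℝ)).congr_of_eventuallyEq this
  · subst h
    have h0 : (3 : ℝ) * (max (0 : ℝ) 0) ^ 2 = 0 := by simp
    rw [h0, hasDerivAt_iff_isLittleO_nhds_zero]
    have h1 : (fun s : ℝ => s ^ 3) =o[𝓝 0] fun s : ℝ => s := by
      simpa using Asymptotics.isLittleO_pow_id (𝕜 := ℝ) (n := 3) (by norm_num)
    refine Asymptotics.IsBigO.trans_isLittleO ?_ h1
    refine Asymptotics.IsBigO.of_bound 1 (Eventually.of_forall fun s => ?_)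
    simp only [P, zero_add, max_self, ne_eq, OfNat.ofNat_ne_zero, not_false_eq_true, zero_pow,
      sub_zero, smul_zero, one_mul, Real.norm_eq_abs]
    rcases le_total s 0 with hs | hs
    · rw [max_eq_right hs]; simp
    · rw [max_eq_left hs]
  · have : P =ᶠ[𝓝 t] fun s => s ^ 3 := by
      filter_upwards [Ioi_mem_nhds h] with s hs
      rw [P, max_eq_left (le_of_lt hs)]
    rw [max_eq_left h.le]
    have h2 : HasDerivAt (fun s : ℝ => s ^ 3) (3 * t ^ 2) t := by simpa using hasDerivAt_pow 3 t
    exact h2.congr_of_eventuallyEq this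

lemma contDiff_posSq : ContDiff ℝ 1 (fun s : ℝ => (max s 0) ^ 2) := by
  have hd : deriv (fun s : ℝ => (max s 0) ^ 2) = fun t => 2 * max t 0 :=
    funext fun t => (hasDerivAt_posSq t).deriv
  rw [contDiff_one_iff_deriv, hd]
  exact ⟨fun t => (hasDerivAt_posSq t).differentiableAt, by fun_prop⟩

lemma contDiff_P : ContDiff ℝ 2 P := by
  have hd : deriv P = fun t => 3 * (max t 0) ^ 2 := funext fun t => (hasDerivAt_P t).deriv
  have h2 : (2 : WithTop ℕ∞) = 1 + 1 := rfl
  rw [h2, contDiff_succ_iff_deriv, hd]
  exact ⟨fun t => (hasDerivAt_P t).differentiableAt, by simp, contDiff_const.mul contDiff_posSq⟩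

lemma convexOn_of_two {f f₁ f₂ : ℝ → ℝ} (h₁ : ∀ t, HasDerivAt f (f₁ t) t)
    (h₂ : ∀ t, HasDerivAt f₁ (f₂ t) t) (h₃ : ∀ t, 0 ≤ f₂ t) : ConvexOn ℝ Set.univ f := by
  refine Monotone.convexOn_univ_of_deriv (fun t => (h₁ t).differentiableAt) ?_
  have hd : deriv f = f₁ := funext fun t => (h₁ t).deriv
  rw [hd]
  refine monotone_of_deriv_nonneg (fun t => (h₂ t).differentiableAt) fun t => ?_
  rw [(h₂ t).deriv]; exact h₃ t

/-- A `C²` convex monotone smoothing of the positive part. -/
noncomputable def phi (d t : ℝ) : ℝ := (P (t + d) - 2 * P t + P (t - d)) / (6 * d ^ 2)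

lemma hasDerivAt_phi (d t : ℝ) : HasDerivAt (phi d)
    ((3 * (max (t + d) 0) ^ 2 - 2 * (3 * (max t 0) ^ 2) + 3 * (max (t - d) 0) ^ 2)
      / (6 * d ^ 2)) t := by
  have h1 := (hasDerivAt_P (t + d)).comp_add_const t d
  have h2 := (hasDerivAt_P (t - d)).comp_sub_const t d
  exact ((h1.sub ((hasDerivAt_P t).const_mul 2)).add h2).div_const (6 * d ^ 2)

lemma contDiff_phi (d : ℝ) : ContDiff ℝ 2 (phi d) := by
  unfold phi
  refine ContDiff.div_const ?_ _
  refine ((contDiff_P.comp (contDiff_id.add contDiff_const)).sub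
    (contDiff_const.mul contDiff_P)).add (contDiff_P.comp (contDiff_id.sub contDiff_const))

lemma convexOn_phi {d : ℝ} (hd : 0 < d) : ConvexOn ℝ Set.univ (phi d) := by
  refine convexOn_of_two (hasDerivAt_phi d)
    (f₂ := fun t => (3 * (2 * max (t + d) 0) - 2 * (3 * (2 * max t 0)) + 3 * (2 * max (t - d) 0))
      / (6 * d ^ 2)) (fun t => ?_) (fun t => ?_)
  · have h1 := (hasDerivAt_posSq (t + d)).comp_add_const t d
    have h2 := (hasDerivAt_posSq (t - d)).comp_sub_const t d
    exact (((h1.const_mul 3).sub (((hasDerivAt_posSq t).const_mul 3).const_mul 2)).add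
      (h2.const_mul 3)).div_const (6 * d ^ 2)
  · refine div_nonneg ?_ (by positivity)
    simp only [max_def]
    split_ifs <;> linarith

lemma monotone_phi {d : ℝ} (hd : 0 < d) : Monotone (phi d) := by
  refine monotone_of_deriv_nonneg (fun t => (hasDerivAt_phi d t).differentiableAt) fun t => ?_
  rw [(hasDerivAt_phi d t).deriv]
  refine div_nonneg ?_ (by positivity)
  simp only [max_def]
  split_ifs <;> nlinarith

lemma phi_of_le {d t : ℝ} (hd : 0 < d) (h : t ≤ -d) : phi d t = 0 := by
  unfold phi P
  rw [max_eq_right (by linarith), max_eq_right (by linarith), max_eq_right (by linarith)]; simp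

lemma phi_of_ge {d t : ℝ} (hd : 0 < d) (h : d ≤ t) : phi d t = t := by
  unfold phi P
  rw [max_eq_left (by linarith), max_eq_left (by linarith), max_eq_left (by linarith)]
  field_simp; ring

lemma P_sub (s : ℝ) : P s = P (-s) + s ^ 3 := by
  unfold P
  rcases le_total s 0 with h | h
  · rw [max_eq_right h, max_eq_left (by linarith)]; ring
  · rw [max_eq_left h, max_eq_right (by linarith)]; ring

lemma phi_symm {d : ℝ} (hd : 0 < d) (t : ℝ) : phi d t = phi d (-t) + t := by
  unfold phi
  rw [P_sub (t + d), P_sub t, P_sub (t - d), show -(t + d) = -t - d by ring,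
    show -(t - d) = -t + d by ring]
  field_simp; ring

lemma phi_le {d : ℝ} (hd : 0 < d) (t : ℝ) : phi d t ≤ max t 0 + d := by
  rcases le_total d t with h | h
  · rw [phi_of_ge hd h]; linarith [le_max_left t 0]
  · have := monotone_phi hd h
    rw [phi_of_ge hd le_rfl] at this
    linarith [le_max_right t 0]

lemma smax_mono {d : ℝ} (hd : 0 < d) {a A b B : ℝ} (ha : a ≤ A) (hb : b ≤ B) :
    b + phi d (a - b) ≤ B + phi d (A - B) := by
  have h1 : phi d (a - b) ≤ phi d (A - b) := monotone_phi hd (by linarith)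
  have h2 : phi d (-(A - b)) ≤ phi d (-(A - B)) := monotone_phi hd (by linarith)
  have h3 := phi_symm hd (A - b)
  have h4 := phi_symm hd (A - B)
  linarith

variable {E : Type*} [NormedAddCommGroup E] [NormedSpace ℝ E]

lemma smooth_max2 {κ : Type*} (g : κ → E → ℝ) (hg : ∀ i, ConvexOn ℝ Set.univ (g i))
    (hg2 : ∀ i, ContDiff ℝ 2 (g i)) {d : ℝ} (hd : 0 < d) (s : Finset κ) (hs : s.Nonempty) :
    ∃ h : E → ℝ, ConvexOn ℝ Set.univ h ∧ ContDiff ℝ 2 h ∧
      (∀ y M, (∀ i ∈ s, g i y + s.card * d ≤ M) → h y ≤ M) ∧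
      (∀ y, ∀ i ∈ s, (∀ j ∈ s, j ≠ i → g j y + s.card * d ≤ g i y) → h y = g i y) := by
  induction hs using Finset.Nonempty.cons_induction with
  | singleton k =>
    refine ⟨g k, hg k, hg2 k, ?_, ?_⟩
    · intro y M hM
      have := hM k (by simp)
      simp only [Finset.card_singleton, Nat.cast_one, one_mul] at this
      linarith
    · intro y i hi _
      rw [Finset.mem_singleton.1 hi]
  | cons k s hk hs ih =>
    obtain ⟨h, hc, hD, hU, hE⟩ := ih
    have hcard : ((Finset.cons k s hk).card : ℝ) = s.card + 1 := by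
      rw [Finset.card_cons]; push_cast; ring
    have hs0 : (0 : ℝ) ≤ s.card * d := by positivity
    refine ⟨fun y => g k y + phi d (h y - g k y), ?_, ?_, ?_, ?_⟩
    · refine ⟨convex_univ, fun x _ y _ u v hu hv huv => ?_⟩
      have h1 := hc.2 (Set.mem_univ x) (Set.mem_univ y) hu hv huv
      have h2 := (hg k).2 (Set.mem_univ x) (Set.mem_univ y) hu hv huv
      have h3 := (convexOn_phi hd).2 (Set.mem_univ (h x - g k x)) (Set.mem_univ (h y - g k y))
        hu hv huv
      have h4 := smax_mono hd h1 h2
      simp only [smul_eq_mul] at h3 h4 ⊢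
      rw [show u * h x + v * h y - (u * g k x + v * g k y)
        = u * (h x - g k x) + v * (h y - g k y) by ring] at h4
      linarith
    · exact (hg2 k).add ((contDiff_phi d).comp (hD.sub (hg2 k)))
    · intro y M hM
      rw [hcard] at hM
      have h1 : h y ≤ M - d := hU y _ fun i hi => by
        have := hM i (Finset.mem_cons_of_mem hi); linarith
      have h2 := hM k (Finset.mem_cons_self _ _)
      have h3 := phi_le hd (h y - g k y)
      rcases le_total (h y - g k y) 0 with h4 | h4
      · rw [max_eq_right h4] at h3; nlinarith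
      · rw [max_eq_left h4] at h3; nlinarith
    · intro y i hi hM
      rw [hcard] at hM
      rcases Finset.mem_cons.1 hi with rfl | hi'
      · have h1 : h y ≤ g i y - d := hU y _ fun j hj => by
          have := hM j (Finset.mem_cons_of_mem hj) (fun e => hk (e ▸ hj)); linarith
        show g i y + phi d (h y - g i y) = g i y
        rw [phi_of_le hd (by linarith), add_zero]
      · have h1 : h y = g i y := hE y i hi' fun j hj hji => by
          have := hM j (Finset.mem_cons_of_mem hj) hji; linarith
        have h2 := hM k (Finset.mem_cons_self _ _) (fun e => hk (e ▸ hi'))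
        show g k y + phi d (h y - g k y) = g i y
        rw [phi_of_ge hd (by linarith), h1]; ring

/-- A convex `C²` function equal to the square near zero, of small linear growth. -/
noncomputable def H (r t : ℝ) : ℝ :=
  t ^ 2 - (P (t - r) - P (t - 2 * r) + (P (-r - t) - P (-2 * r - t))) / (3 * r)

lemma contDiff_H (r : ℝ) : ContDiff ℝ 2 (H r) := by
  unfold H
  refine (contDiff_id.pow 2).sub (ContDiff.div_const ?_ _)
  exact ((contDiff_P.comp (contDiff_id.sub contDiff_const)).sub
    (contDiff_P.comp (contDiff_id.sub contDiff_const))).add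
    ((contDiff_P.comp (contDiff_const.sub contDiff_id)).sub
      (contDiff_P.comp (contDiff_const.sub contDiff_id)))

lemma convexOn_H {r : ℝ} (hr : 0 < r) : ConvexOn ℝ Set.univ (H r) := by
  refine convexOn_of_two
    (f₁ := fun t => 2 * t - (3 * (max (t - r) 0) ^ 2 - 3 * (max (t - 2 * r) 0) ^ 2
      + (-(3 * (max (-r - t) 0) ^ 2) - -(3 * (max (-2 * r - t) 0) ^ 2))) / (3 * r))
    (f₂ := fun t => 2 - (3 * (2 * max (t - r) 0) - 3 * (2 * max (t - 2 * r) 0)
      + (-(3 * -(2 * max (-r - t) 0)) - -(3 * -(2 * max (-2 * r - t) 0)))) / (3 * r))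
    (fun t => ?_) (fun t => ?_) (fun t => ?_)
  · have h0 : HasDerivAt (fun s : ℝ => s ^ 2) (2 * t) t := by simpa using hasDerivAt_pow 2 t
    have h1 := (hasDerivAt_P (t - r)).comp_sub_const t r
    have h2 := (hasDerivAt_P (t - 2 * r)).comp_sub_const t (2 * r)
    have h3 := (hasDerivAt_P (-r - t)).comp_const_sub (-r) t
    have h4 := (hasDerivAt_P (-2 * r - t)).comp_const_sub (-2 * r) t
    exact h0.sub (((h1.sub h2).add (h3.sub h4)).div_const (3 * r))
  · have h0 : HasDerivAt (fun s : ℝ => 2 * s) 2 t := by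
      simpa using (hasDerivAt_id t).const_mul (2 : ℝ)
    have h1 := (hasDerivAt_posSq (t - r)).comp_sub_const t r
    have h2 := (hasDerivAt_posSq (t - 2 * r)).comp_sub_const t (2 * r)
    have h3 := (hasDerivAt_posSq (-r - t)).comp_const_sub (-r) t
    have h4 := (hasDerivAt_posSq (-2 * r - t)).comp_const_sub (-2 * r) t
    exact h0.sub ((((h1.const_mul 3).sub (h2.const_mul 3)).add
      ((h3.const_mul 3).neg.sub (h4.const_mul 3).neg)).div_const (3 * r))
  · rw [sub_nonneg, div_le_iff₀ (by positivity)]
    simp only [max_def]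
    split_ifs <;> linarith

lemma H_of_abs_le {r t : ℝ} (hr : 0 < r) (h : |t| ≤ r) : H r t = t ^ 2 := by
  obtain ⟨h1, h2⟩ := abs_le.1 h
  unfold H P
  rw [max_eq_right (by linarith), max_eq_right (by linarith), max_eq_right (by linarith),
    max_eq_right (by linarith)]
  simp

lemma P_mono {a b : ℝ} (h : a ≤ b) : P a ≤ P b :=
  pow_le_pow_left₀ (le_max_right _ _) (max_le_max_right _ h) 3

lemma H_le {r : ℝ} (hr : 0 < r) (t : ℝ) : H r t ≤ 3 * r * |t| := by
  rcases le_total |t| (2 * r) with h | h
  · have h1 : P (t - 2 * r) ≤ P (t - r) := P_mono (by linarith)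
    have h2 : P (-2 * r - t) ≤ P (-r - t) := P_mono (by linarith)
    have h3 : 0 ≤ (P (t - r) - P (t - 2 * r) + (P (-r - t) - P (-2 * r - t))) / (3 * r) :=
      div_nonneg (by linarith) (by positivity)
    have h4 : t ^ 2 = |t| * |t| := by rw [abs_mul_abs_self]; ring
    have h5 := abs_nonneg t
    unfold H
    nlinarith
  · rcases le_total 0 t with ht | ht
    · rw [abs_of_nonneg ht] at h ⊢
      have : H r t = 3 * r * t - 7 * r ^ 2 / 3 := by
        unfold H P
        rw [max_eq_left (by linarith), max_eq_left (by linarith), max_eq_right (by linarith),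
          max_eq_right (by linarith)]
        field_simp; ring
      rw [this]; nlinarith
    · rw [abs_of_nonpos ht] at h ⊢
      have : H r t = 3 * r * (-t) - 7 * r ^ 2 / 3 := by
        unfold H P
        rw [max_eq_right (by linarith), max_eq_right (by linarith), max_eq_left (by linarith),
          max_eq_left (by linarith)]
        field_simp; ring
      rw [this]; nlinarith

lemma convexOn_comp_affine {f : ℝ → ℝ} (hf : ConvexOn ℝ Set.univ f) (L : E →L[ℝ] ℝ) (x : E) :
    ConvexOn ℝ Set.univ (fun y => f (L (y - x))) := by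
  refine ⟨convex_univ, fun y _ z _ u v hu hv huv => ?_⟩
  have h1 := hf.2 (Set.mem_univ (L (y - x))) (Set.mem_univ (L (z - x))) hu hv huv
  have h2 : L (u • y + v • z - x) = u • L (y - x) + v • L (z - x) := by
    simp only [map_add, map_sub, map_smul, smul_eq_mul]
    linear_combination (L x) * huv
  show f (L (u • y + v • z - x)) ≤ _
  rw [h2]; exact h1

lemma convexOn_sum {μ : Type*} (s : Finset μ) (f : μ → E → ℝ)
    (hf : ∀ k, ConvexOn ℝ Set.univ (f k)) : ConvexOn ℝ Set.univ (fun y => ∑ k ∈ s, f k y) := by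
  refine ⟨convex_univ, fun y _ z _ u v hu hv huv => ?_⟩
  simp only [smul_eq_mul, Finset.mul_sum, ← Finset.sum_add_distrib]
  exact Finset.sum_le_sum fun k _ => (hf k).2 (Set.mem_univ y) (Set.mem_univ z) hu hv huv

theorem thm_interp : Pool.Agent.H153Z.Stat.S_interp := by
  intro ι κ μ _ _ _ _ x c p h w hw hgap
  have hev : ∀ᶠ r in 𝓝[>] (0 : ℝ), 0 < r ∧ ∀ i j, j ≠ i →
      c j + p j (x i - x j) + r * (∑ k, w j k * (3 * |h j k (x i - x j)|)
        + (Fintype.card κ : ℝ)) < c i := by
    refine Eventually.and self_mem_nhdsWithin ?_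
    refine eventually_all.2 fun i => eventually_all.2 fun j => ?_
    by_cases hji : j = i
    · exact Eventually.of_forall fun _ h => absurd hji h
    · have hc : Continuous fun r : ℝ => c j + p j (x i - x j)
          + r * (∑ k, w j k * (3 * |h j k (x i - x j)|) + (Fintype.card κ : ℝ)) := by fun_prop
      have := (hc.tendsto 0).eventually_lt_const (u := c i) (by simpa using hgap i j hji)
      exact (this.filter_mono nhdsWithin_le_nhds).mono fun _ h _ => h
  obtain ⟨r, hr, hgap'⟩ := hev.exists
  set g : κ → (ι → ℝ) → ℝ :=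
    fun i y => c i + p i (y - x i) + ∑ k, w i k * H r (h i k (y - x i)) with hgdef
  have hgc : ∀ i, ConvexOn ℝ Set.univ (g i) := by
    intro i
    refine ConvexOn.add ?_ (convexOn_sum Finset.univ _ fun k => ?_)
    · exact convexOn_comp_affine (f := fun t => c i + t)
        ((convexOn_const (c i) convex_univ).add (convexOn_id convex_univ)) (p i) (x i)
    · exact (convexOn_comp_affine (convexOn_H hr) (h i k) (x i)).smul (hw i k)
  have hg2 : ∀ i, ContDiff ℝ 2 (g i) := by
    intro i
    refine (contDiff_const.add ((p i).contDiff.comp (contDiff_id.sub contDiff_const))).add ?_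
    exact ContDiff.sum fun k _ => contDiff_const.mul
      ((contDiff_H r).comp ((h i k).contDiff.comp (contDiff_id.sub contDiff_const)))
  obtain ⟨G, hc, hD, -, hE⟩ := smooth_max2 g hgc hg2 hr Finset.univ Finset.univ_nonempty
  refine ⟨G, hc, hD, fun i => ?_⟩
  have hA : ∀ᶠ y in 𝓝 (x i), ∀ j, j ≠ i →
      g j y + (Finset.univ : Finset κ).card * r < g i y := by
    refine eventually_all.2 fun j => ?_
    by_cases hji : j = i
    · exact Eventually.of_forall fun _ h => absurd hji h
    · have h0 : g i (x i) = c i := by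
        have : H r 0 = 0 := by rw [H_of_abs_le hr (by simpa using hr.le)]; simp
        simp [hgdef, this]
      have h1 : g j (x i) + (Finset.univ : Finset κ).card * r < g i (x i) := by
        rw [h0, Finset.card_univ]
        have h2 := hgap' i j hji
        have h3 : ∑ k, w j k * H r (h j k (x i - x j))
            ≤ r * ∑ k, w j k * (3 * |h j k (x i - x j)|) := by
          rw [Finset.mul_sum]
          refine Finset.sum_le_sum fun k _ => ?_
          have := mul_le_mul_of_nonneg_left (H_le hr (h j k (x i - x j))) (hw j k)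
          linarith
        simp only [hgdef]
        linarith
      have hc1 : ContinuousAt (fun y => g j y + (Finset.univ : Finset κ).card * r) (x i) :=
        ((hg2 j).continuous.add continuous_const).continuousAt
      have hc2 : ContinuousAt (g i) (x i) := (hg2 i).continuous.continuousAt
      exact (hc1.eventually_lt hc2 h1).mono fun _ h _ => h
  have hB : ∀ᶠ y in 𝓝 (x i), ∀ k, |h i k (y - x i)| < r := by
    refine eventually_all.2 fun k => ?_
    have hc1 : ContinuousAt (fun y => |h i k (y - x i)|) (x i) := by fun_prop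
    exact hc1.eventually_lt continuousAt_const (by simpa using hr)
  filter_upwards [hA, hB] with y hy hy'
  rw [hE y i (Finset.mem_univ _) fun j _ hji => (hy j hji).le]
  simp only [hgdef]
  congr 1
  exact Finset.sum_congr rfl fun k _ => by rw [H_of_abs_le hr (hy' k).le]

end Pool.Agent.H765Z.Interp
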